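import Mathlib
import Pool.Agent.Helper547.Alpha.Defs
import Pool.Agent.Helper547.Alpha.Upper
import Pool.Agent.Helper547.Alpha.Fock
import Pool.Agent.Helper547.Alpha.Dilate

set_option autoImplicit false

namespace Pool.Agent.Results.MP_afe93a_an.AlphaBoth

open Pool.Agent.Helper547.Alpha

lemma upper (n : ℕ) : alpha (EuclideanSpace ℂ (Fin n)) ≤ ((n : ℝ) + 1) / 2 := alpha_le (ub_l2 n)

lemma odd_case (n : ℕ) (hn : Odd n) : alpha (EuclideanSpace ℂ (Fin n)) = ((n : ℝ) + 1) / 2 := by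
  refine le_antisymm (upper n) ?_
  obtain ⟨m, rfl⟩ := hn
  have h := lower_fock (2 * m + 1) m (by omega)
  refine le_trans (le_of_eq ?_) h
  push_cast
  rw [show ((m : ℝ) + 1) * (2 * m + 1 - m) = (m + 1) ^ 2 by ring, Real.sqrt_sq (by positivity)]
  ring

lemma even_case (n : ℕ) (hn : Even n) (h0 : 0 < n) :
    Real.sqrt ((n : ℝ) * (n + 2)) / 2 ≤ alpha (EuclideanSpace ℂ (Fin n)) := by
  obtain ⟨m, rfl⟩ := hn
  have h := lower_fock (m + m) m (by omega)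
  refine le_trans (le_of_eq ?_) h
  push_cast
  rw [show ((m : ℝ) + m) * (m + m + 2) = 2 ^ 2 * ((m + 1) * (m + m - m)) by ring,
    Real.sqrt_mul (by norm_num), Real.sqrt_sq (by norm_num)]
  ring

lemma paulsen (n : ℕ) (hn : 2 < n) : ((n : ℝ) + 1) / 2 < n / Real.sqrt 2 := by
  have h2 : (0 : ℝ) < Real.sqrt 2 := by positivity
  have h3 : Real.sqrt 2 * Real.sqrt 2 = 2 := Real.mul_self_sqrt (by norm_num)
  have h4 : Real.sqrt 2 < 1.5 := by
    rw [Real.sqrt_lt' (by norm_num)]; norm_num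
  have hn' : (3 : ℝ) ≤ n := by exact_mod_cast hn
  rw [div_lt_div_iff₀ (by norm_num) h2]
  nlinarith

lemma linf_case (n : ℕ) (hn : 0 < n) : Real.sqrt (n / 2) ≤ alpha (Fin n → ℂ) ∧
    alpha (Fin n → ℂ) ≤ n / Real.sqrt (2 * n - 1) :=
  ⟨lower_linf n, alpha_le (ub_linf_sharp n hn)⟩

lemma linf_improves (n : ℕ) (hn : 2 < n) : alpha (Fin n → ℂ) < min (Real.sqrt n) (n / 2) := by
  refine (linf_case n (by omega)).2.trans_lt (lt_min ?_ ?_)
  · have hn' : (3 : ℝ) ≤ n := by exact_mod_cast hn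
    have hs : 0 < Real.sqrt (2 * n - 1) := Real.sqrt_pos.mpr (by linarith)
    have hs' : 0 < Real.sqrt n := Real.sqrt_pos.mpr (by linarith)
    rw [div_lt_iff₀ hs]
    have h1 : Real.sqrt n < Real.sqrt (2 * n - 1) := Real.sqrt_lt_sqrt (by linarith) (by linarith)
    calc (n : ℝ) = Real.sqrt n * Real.sqrt n := (Real.mul_self_sqrt (by linarith)).symm
      _ < Real.sqrt n * Real.sqrt (2 * n - 1) := mul_lt_mul_of_pos_left h1 hs'
  · have hn' : (3 : ℝ) ≤ n := by exact_mod_cast hn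
    have h2 : (2 : ℝ) < Real.sqrt (2 * n - 1) := by
      rw [Real.lt_sqrt (by norm_num)]; linarith
    exact div_lt_div_of_pos_left (by linarith) (by norm_num) h2

/-- Hilbert case: `α(ℓ_2ⁿ) = (n+1)/2` for odd `n`, `√(n(n+2))/2 ≤ α(ℓ_2ⁿ) ≤ (n+1)/2` for even `n`,
and `α(ℓ_2ⁿ) < n/√2` for all `n > 2`. Sup-norm case: `√(n/2) ≤ α(ℓ_∞ⁿ) ≤ n/√(2n-1)`, which is
smaller than `min (√n) (n/2)` for all `n > 2`. -/
theorem result :
    (∀ n : ℕ, Odd n → alpha (EuclideanSpace ℂ (Fin n)) = ((n : ℝ) + 1) / 2) ∧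
    (∀ n : ℕ, Even n → 0 < n → Real.sqrt ((n : ℝ) * (n + 2)) / 2 ≤ alpha (EuclideanSpace ℂ (Fin n)) ∧
      alpha (EuclideanSpace ℂ (Fin n)) ≤ ((n : ℝ) + 1) / 2) ∧
    (∀ n : ℕ, 2 < n → alpha (EuclideanSpace ℂ (Fin n)) < n / Real.sqrt 2) ∧
    (∀ n : ℕ, 0 < n → Real.sqrt (n / 2) ≤ alpha (Fin n → ℂ) ∧
      alpha (Fin n → ℂ) ≤ n / Real.sqrt (2 * n - 1)) ∧
    (∀ n : ℕ, 2 < n → alpha (Fin n → ℂ) < min (Real.sqrt n) (n / 2)) :=
  ⟨odd_case, fun n hn h0 => ⟨even_case n hn h0, upper n⟩,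
    fun n hn => (upper n).trans_lt (paulsen n hn), linf_case, linf_improves⟩

end Pool.Agent.Results.MP_afe93a_an.AlphaBoth
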