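import Mathlib
import Pool.Agent.Helper547.Alpha.Defs
import Pool.Agent.Helper547.Alpha.Upper
import Pool.Agent.Helper547.Alpha.Fock

set_option autoImplicit false

namespace Pool.Agent.Results.MP_afe93a_an.AlphaHilbert

open Pool.Agent.Helper547.Alpha

lemma upper (n : ℕ) : alpha (EuclideanSpace ℂ (Fin n)) ≤ ((n : ℝ) + 1) / 2 := alpha_le (ub_l2 n)

lemma odd_case (n : ℕ) (hn : Odd n) : alpha (EuclideanSpace ℂ (Fin n)) = ((n : ℝ) + 1) / 2 := by
  refine le_antisymm (upper n) ?_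
  obtain ⟨m, rfl⟩ := hn
  have h := lower_fock (2 * m + 1) m (by omega)
  refine le_trans (le_of_eq ?_) h
  push_cast
  rw [show ((m : ℝ) + 1) * (2 * m + 1 - m) = (m + 1) ^ 2 by ring, Real.sqrt_sq (by positivity)]
  ring

lemma even_case (n : ℕ) (hn : Even n) (h0 : 0 < n) :
    Real.sqrt ((n : ℝ) * (n + 2)) / 2 ≤ alpha (EuclideanSpace ℂ (Fin n)) := by
  obtain ⟨m, rfl⟩ := hn
  have h := lower_fock (m + m) m (by omega)
  refine le_trans (le_of_eq ?_) h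
  push_cast
  rw [show ((m : ℝ) + m) * (m + m + 2) = 2 ^ 2 * ((m + 1) * (m + m - m)) by ring,
    Real.sqrt_mul (by norm_num), Real.sqrt_sq (by norm_num)]
  ring

lemma paulsen (n : ℕ) (hn : 2 < n) : ((n : ℝ) + 1) / 2 < n / Real.sqrt 2 := by
  have h2 : (0 : ℝ) < Real.sqrt 2 := by positivity
  have h3 : Real.sqrt 2 * Real.sqrt 2 = 2 := Real.mul_self_sqrt (by norm_num)
  have h4 : Real.sqrt 2 < 1.5 := by
    rw [Real.sqrt_lt' (by norm_num)]; norm_num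
  have hn' : (3 : ℝ) ≤ n := by exact_mod_cast hn
  rw [div_lt_div_iff₀ (by norm_num) h2]
  nlinarith

/-- `α(ℓ_2ⁿ) = (n+1)/2` for odd `n`; `√(n(n+2))/2 ≤ α(ℓ_2ⁿ) ≤ (n+1)/2` for even `n`; the value
`n/√2` conjectured by Paulsen is never attained for `n > 2`. -/
theorem result :
    (∀ n : ℕ, Odd n → alpha (EuclideanSpace ℂ (Fin n)) = ((n : ℝ) + 1) / 2) ∧
    (∀ n : ℕ, Even n → 0 < n → Real.sqrt ((n : ℝ) * (n + 2)) / 2 ≤ alpha (EuclideanSpace ℂ (Fin n)) ∧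
      alpha (EuclideanSpace ℂ (Fin n)) ≤ ((n : ℝ) + 1) / 2) ∧
    (∀ n : ℕ, 2 < n → alpha (EuclideanSpace ℂ (Fin n)) < n / Real.sqrt 2) :=
  ⟨odd_case, fun n hn h0 => ⟨even_case n hn h0, upper n⟩,
    fun n hn => (upper n).trans_lt (paulsen n hn)⟩

end Pool.Agent.Results.MP_afe93a_an.AlphaHilbert
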